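import Pool.Agent.helper62.W3.SpecA
import Pool.Agent.Lib.BrunHooley
import Pool.Agent.Lib.PrimeSums

/-! # Row we:BPS (MP_5628fe_nt): Brun's pure sieve -/

set_option autoImplicit false

namespace Pool.Agent.EC

open Finset ArithmeticFunction
open Pool.Agent.CH (Win rgh dl eU Mo ClP ClB)
open Pool.Agent.Lib.BrunHooley (es ts)

private theorem BPS_inj (P : Finset ℕ) (hP : ∀ p ∈ P, p.Prime) {T T' : Finset ℕ} (hT : T ⊆ P) (hT' : T' ⊆ P)
    (h : ∏ p ∈ T, p = ∏ p ∈ T', p) : T = T' := by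
  rw [← Nat.primeFactors_prod fun p hp => hP p (hT hp), ← Nat.primeFactors_prod fun p hp => hP p (hT' hp), h]

private theorem BPS_dvd (P : Finset ℕ) (hP : ∀ p ∈ P, p.Prime) {T : Finset ℕ} (hT : T ⊆ P) (c : ℕ) :
    (∏ p ∈ T, (if p ∣ c then (1 : ℝ) else 0)) = if (∏ p ∈ T, p) ∣ c then 1 else 0 := by
  by_cases h : ∀ p ∈ T, p ∣ c
  · rw [prod_congr rfl fun p hp => if_pos (h p hp), prod_const_one, if_pos]
    exact Finset.prod_primes_dvd c (fun p hp => (hP p (hT hp)).prime) h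
  · rw [if_neg]
    · push Not at h
      obtain ⟨p, hp, hpc⟩ := h
      exact prod_eq_zero hp (if_neg hpc)
    · intro h1
      exact h fun p hp => (dvd_prod_of_mem (fun q => q) hp).trans h1

private theorem BPS_mu (P : Finset ℕ) (hP : ∀ p ∈ P, p.Prime) {T : Finset ℕ} (hT : T ⊆ P) :
    moebius (∏ p ∈ T, p) = (-1) ^ #T := by
  induction T using Finset.induction_on with
  | empty => simp
  | insert q T hq ih =>
    have hq' : q.Prime := hP q (hT (mem_insert_self _ _))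
    have hT' : T ⊆ P := fun p hp => hT (mem_insert_of_mem hp)
    have hcop : Nat.Coprime q (∏ p ∈ T, p) := by
      apply Nat.Coprime.prod_right
      intro p hp
      exact (Nat.coprime_primes hq' (hP p (hT' hp))).2 fun h => hq (h ▸ hp)
    rw [prod_insert hq, isMultiplicative_moebius.map_mul_of_coprime hcop, moebius_apply_prime hq', ih hT',
      card_insert_of_notMem hq, pow_succ]
    ring

private theorem BPS_main (P : Finset ℕ) (hP : ∀ p ∈ P, p.Prime) (s c : ℕ) :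
    |(∏ p ∈ P, (1 - if p ∣ c then (1 : ℝ) else 0)) -
      ∑ e ∈ (P.powerset.filter fun T => #T ≤ s).image (fun T => ∏ p ∈ T, p) with e ∣ c, ((moebius e : ℤ) : ℝ)| ≤
      #(((powersetCard (s + 1) P).image fun T => ∏ p ∈ T, p).filter fun e => e ∣ c) := by
  have hb := Pool.Agent.Lib.BrunHooley.bonferroni P (fun p => if p ∣ c then (1 : ℝ) else 0)
    (fun p _ => by split_ifs <;> norm_num) (fun p _ => by split_ifs <;> norm_num) s
  have e1 : ∑ e ∈ (P.powerset.filter fun T => #T ≤ s).image (fun T => ∏ p ∈ T, p) with e ∣ c, ((moebius e : ℤ) : ℝ) =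
      ts P (fun p => if p ∣ c then (1 : ℝ) else 0) s := by
    rw [← Pool.Agent.Lib.BrunHooley.ts_eq_sum_powerset, sum_filter, sum_image]
    · refine sum_congr rfl fun T hT => ?_
      have hTP : T ⊆ P := mem_powerset.1 (mem_filter.1 hT).1
      rw [BPS_dvd P hP hTP, BPS_mu P hP hTP]
      split_ifs <;> simp
    · intro T hT T' hT' h
      exact BPS_inj P hP (mem_powerset.1 (mem_filter.1 hT).1) (mem_powerset.1 (mem_filter.1 hT').1) h
  have e2 : (#(((powersetCard (s + 1) P).image fun T => ∏ p ∈ T, p).filter fun e => e ∣ c) : ℝ) =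
      es P (fun p => if p ∣ c then (1 : ℝ) else 0) (s + 1) := by
    unfold es
    rw [card_filter, Nat.cast_sum, sum_image]
    · refine sum_congr rfl fun T hT => ?_
      have hTP : T ⊆ P := (mem_powersetCard.1 hT).1
      rw [BPS_dvd P hP hTP]
      split_ifs <;> simp
    · intro T hT T' hT' h
      exact BPS_inj P hP (mem_powersetCard.1 hT).1 (mem_powersetCard.1 hT').1 h
  rw [e1, e2, abs_sub_comm]
  have h3 : |(-1 : ℝ) ^ s| = 1 := by simp
  have h4 := abs_le.2 ⟨by linarith [hb.1, hb.2], hb.2⟩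
  rw [abs_mul, h3, one_mul] at h4
  exact h4

private theorem BPS_inv (P : Finset ℕ) (hP : ∀ p ∈ P, p.Prime) (n : ℕ) :
    ∑ e ∈ (powersetCard n P).image (fun T => ∏ p ∈ T, p), 1 / (e : ℝ) =
      es P (fun p => 1 / (p : ℝ)) n := by
  unfold es
  rw [sum_image]
  · refine sum_congr rfl fun T hT => ?_
    push_cast
    simp [prod_inv_distrib]
  · intro T hT T' hT' h
    exact BPS_inj P hP (mem_powersetCard.1 hT).1 (mem_powersetCard.1 hT').1 h

private theorem BPS_ev (a κ : ℝ) (ha : 0 < a) (hκ : 0 < κ) :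
    ∃ N₀ : ℕ, ∀ N : ℕ, N₀ ≤ N → Real.exp 4 ≤ Real.log N ∧
      a * Real.log (Real.log N) + 2 ≤ κ * Real.log N ^ (1 / 20 : ℝ) := by
  have h1 : ∀ᶠ L : ℝ in Filter.atTop, Real.exp 4 ≤ L ∧ a * Real.log L + 2 ≤ κ * L ^ (1 / 20 : ℝ) := by
    have h2 := (isLittleO_log_rpow_atTop (by norm_num : (0 : ℝ) < 1 / 20)).bound (by positivity : 0 < κ / (2 * a))
    have h3 := (tendsto_rpow_atTop (by norm_num : (0 : ℝ) < 1 / 20)).eventually_ge_atTop (4 / κ)
    filter_upwards [h2, h3, Filter.eventually_ge_atTop (Real.exp 4)] with L hL2 hL3 hL4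
    refine ⟨hL4, ?_⟩
    have hpos : 0 ≤ L ^ (1 / 20 : ℝ) := Real.rpow_nonneg ((Real.exp_pos 4).le.trans hL4) _
    rw [Real.norm_eq_abs, Real.norm_eq_abs, abs_of_nonneg hpos] at hL2
    have h5 : Real.log L ≤ κ / (2 * a) * L ^ (1 / 20 : ℝ) := (le_abs_self _).trans hL2
    have h6 : a * Real.log L ≤ κ / 2 * L ^ (1 / 20 : ℝ) := by
      calc a * Real.log L ≤ a * (κ / (2 * a) * L ^ (1 / 20 : ℝ)) := mul_le_mul_of_nonneg_left h5 ha.le
        _ = κ / 2 * L ^ (1 / 20 : ℝ) := by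
          field_simp
    rw [div_le_iff₀ hκ] at hL3
    linarith
  have h2 := (Real.tendsto_log_atTop.comp tendsto_natCast_atTop_atTop).eventually h1
  obtain ⟨N₀, h⟩ := Filter.eventually_atTop.1 h2
  exact ⟨N₀, fun N hN => h N hN⟩

theorem BPS : BPS_stmt := by
  intro A κ hκ
  obtain ⟨N₀, hN₀⟩ := BPS_ev ((A : ℝ) + 6) κ (by positivity) hκ
  refine ⟨N₀ + 2, fun N hN => ?_⟩
  obtain ⟨hL4, hLκ⟩ := hN₀ N (by omega)
  set L : ℝ := Real.log N with hL
  have hL0 : 0 < L := (Real.exp_pos 4).trans_le hL4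
  have hL1 : 1 ≤ L := (by
    have := Real.add_one_le_exp (4 : ℝ)
    linarith : (1 : ℝ) ≤ Real.exp 4).trans hL4
  have hlL : 4 ≤ Real.log L := by
    rw [Real.le_log_iff_exp_le hL0]
    exact hL4
  have hy : yN N = Real.exp (L ^ (19 / 20 : ℝ)) := rfl
  set y : ℝ := yN N with hydef
  have hy1 : 1 ≤ y := by
    rw [hy]
    exact Real.one_le_exp (Real.rpow_nonneg hL0.le _)
  have hd1 : 1 ≤ L ^ (19 / 20 : ℝ) := Real.one_le_rpow hL1 (by norm_num)
  have hdL : L ^ (19 / 20 : ℝ) ≤ L := by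
    calc L ^ (19 / 20 : ℝ) ≤ L ^ (1 : ℝ) := Real.rpow_le_rpow_of_exponent_le hL1 (by norm_num)
      _ = L := Real.rpow_one L
  have hy2 : 2 ≤ y := by
    rw [hy]
    have h1 := Real.add_one_le_exp (L ^ (19 / 20 : ℝ))
    linarith
  have hfl : 2 ≤ ⌊y⌋₊ := Nat.le_floor (by exact_mod_cast hy2)
  set P : Finset ℕ := Nat.primesLE ⌊y⌋₊ with hP
  have hPp : ∀ p ∈ P, p.Prime := fun p hp => (Nat.mem_primesLE.1 hp).2
  have hPy : ∀ p ∈ P, (p : ℝ) ≤ y := fun p hp =>
    (Nat.le_floor_iff (by linarith)).1 (Nat.mem_primesLE.1 hp).1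
  set s : ℕ := ⌈((A : ℝ) + 6) * Real.log L⌉₊ with hs
  have hs1 : ((A : ℝ) + 6) * Real.log L ≤ s := Nat.le_ceil _
  have hs2 : (s : ℝ) + 1 ≤ ((A : ℝ) + 6) * Real.log L + 2 := by
    have := Nat.ceil_lt_add_one (a := ((A : ℝ) + 6) * Real.log L) (by positivity)
    linarith
  have hNpos : (0 : ℝ) < N := by
    have : 0 < N := by omega
    exact_mod_cast this
  have hbound : ∀ T : Finset ℕ, T ⊆ P → #T ≤ s + 1 →
      1 ≤ ∏ p ∈ T, p ∧ ((∏ p ∈ T, p : ℕ) : ℝ) ≤ (N : ℝ) ^ κ := by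
    intro T hT hc
    constructor
    · exact prod_pos fun p hp => (hPp p (hT hp)).pos
    · push_cast
      calc ∏ p ∈ T, (p : ℝ) ≤ ∏ _p ∈ T, y := prod_le_prod (fun p _ => Nat.cast_nonneg p) fun p hp => hPy p (hT hp)
        _ = y ^ #T := prod_const y
        _ ≤ y ^ (s + 1) := pow_le_pow_right₀ hy1 hc
        _ = Real.exp (((s + 1 : ℕ) : ℝ) * L ^ (19 / 20 : ℝ)) := by rw [hy, ← Real.exp_nat_mul]
        _ ≤ Real.exp (κ * L) := by
          apply Real.exp_le_exp.2
          push_cast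
          calc ((s : ℝ) + 1) * L ^ (19 / 20 : ℝ) ≤ κ * L ^ (1 / 20 : ℝ) * L ^ (19 / 20 : ℝ) :=
                mul_le_mul_of_nonneg_right (hs2.trans hLκ) (by linarith)
            _ = κ * L := by
              rw [mul_assoc, ← Real.rpow_add hL0]
              norm_num
        _ = (N : ℝ) ^ κ := by
          rw [Real.rpow_def_of_pos hNpos, mul_comm]
  refine ⟨(P.powerset.filter fun T => #T ≤ s).image (fun T => ∏ p ∈ T, p),
    (powersetCard (s + 1) P).image (fun T => ∏ p ∈ T, p), ?_, ?_, ?_⟩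
  · intro e he
    rcases mem_union.1 he with he | he
    · obtain ⟨T, hT, rfl⟩ := mem_image.1 he
      exact hbound T (mem_powerset.1 (mem_filter.1 hT).1) ((mem_filter.1 hT).2.trans (Nat.le_succ s))
    · obtain ⟨T, hT, rfl⟩ := mem_image.1 he
      exact hbound T (mem_powersetCard.1 hT).1 (mem_powersetCard.1 hT).2.le
  · intro c hc
    have hm := BPS_main P hPp s c
    constructor
    · intro hr
      have h1 : (∏ p ∈ P, (1 - if p ∣ c then (1 : ℝ) else 0)) = 1 := by
        apply prod_eq_one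
        intro p hp
        rw [if_neg, sub_zero]
        intro hpc
        exact absurd (hr.2 p (hPp p hp) hpc) (not_lt.2 (hPy p hp))
      rw [h1] at hm
      exact hm
    · intro hr
      have h1 : (∏ p ∈ P, (1 - if p ∣ c then (1 : ℝ) else 0)) = 0 := by
        have h2 : ∃ p : ℕ, p.Prime ∧ p ∣ c ∧ (p : ℝ) ≤ y := by
          by_contra h3
          push Not at h3
          exact hr ⟨by omega, h3⟩
        obtain ⟨p, hp, hpc, hpy⟩ := h2
        refine prod_eq_zero (Nat.mem_primesLE.2 ⟨Nat.le_floor hpy, hp⟩ : p ∈ P) ?_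
        rw [if_pos hpc, sub_self]
      rw [h1, zero_sub, abs_neg] at hm
      exact hm
  · rw [BPS_inv P hPp]
    refine (Pool.Agent.Lib.BrunHooley.es_le_pow_div P _ (fun p _ => by positivity) (s + 1)).trans ?_
    set W : ℝ := ∑ p ∈ P, 1 / (p : ℝ) with hW
    have hW0 : 0 ≤ W := sum_nonneg fun p _ => by positivity
    have hW1 : W ≤ Real.log (Real.log ⌊y⌋₊) + 4 := Pool.Agent.Lib.PrimeSums.sum_inv_le _ hfl
    have hW2 : Real.log (Real.log ⌊y⌋₊) ≤ Real.log L := by
      have h1 : (1 : ℝ) < ⌊y⌋₊ := by exact_mod_cast (by omega : 1 < ⌊y⌋₊)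
      apply Real.log_le_log (Real.log_pos h1)
      calc Real.log ⌊y⌋₊ ≤ Real.log y := Real.log_le_log (by linarith) (Nat.floor_le (by linarith))
        _ = L ^ (19 / 20 : ℝ) := by rw [hy, Real.log_exp]
        _ ≤ L := hdL
    have he : Real.exp 1 < 3 := by
      have := Real.exp_one_lt_d9
      linarith
    have hpow := Real.pow_div_factorial_le_exp (Real.exp 1 * W) (by positivity) (s + 1)
    have h1 : W ^ (s + 1) / ((s + 1).factorial : ℝ) =
        (Real.exp 1 * W) ^ (s + 1) / ((s + 1).factorial : ℝ) * Real.exp (-((s + 1 : ℕ) : ℝ)) := by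
      rw [mul_pow, ← Real.exp_nat_mul, mul_one, Real.exp_neg]
      field_simp
    rw [h1]
    calc (Real.exp 1 * W) ^ (s + 1) / ((s + 1).factorial : ℝ) * Real.exp (-((s + 1 : ℕ) : ℝ))
        ≤ Real.exp (Real.exp 1 * W) * Real.exp (-((s + 1 : ℕ) : ℝ)) :=
          mul_le_mul_of_nonneg_right hpow (Real.exp_pos _).le
      _ = Real.exp (Real.exp 1 * W - ((s + 1 : ℕ) : ℝ)) := by rw [← Real.exp_add]; ring_nf
      _ ≤ Real.exp (-(A * Real.log L)) := by
        apply Real.exp_le_exp.2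
        push_cast
        have h2 : Real.exp 1 * W ≤ 3 * (2 * Real.log L) :=
          mul_le_mul he.le (by linarith) hW0 (by norm_num)
        linarith
      _ = 1 / L ^ A := by
        rw [Real.exp_neg, Real.exp_nat_mul, Real.exp_log hL0, one_div]

end Pool.Agent.EC
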